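import Pool.Agent.Lib.MP_ca9be0_an.JetD

namespace Pool.Agent.Retired.MP_ca9be0_an.JetBound

open Pool.Agent.Lib.MP_ca9be0_an

/-- The Pythagoras number of `C^{k,α}(ℝ^n)` is at most the dimension of the space of polynomials
of degree at most `k / 2` in `n` variables, except possibly for odd `k` and `α = 1`, where a larger
finite bound holds. -/
theorem result (k n : ℕ) (α : ℝ) (h0 : 0 < α) (h1 : α ≤ 1) :
    pyth k n α ≤ ((if Odd k ∧ α = 1 then 4 * (4 * n + 5) ^ n * ((n + k / 2).choose (k / 2)) ^ 2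
      else (n + k / 2).choose (k / 2) : ℕ) : ℕ∞) := by
  refine sInf_le ⟨_, ?_, rfl⟩
  rintro f - ⟨M, g, hg, hf⟩
  unfold SumSq
  unfold InHalf at hg ⊢
  by_cases hk : Even k
  · have h5 : ¬ (Odd k ∧ α = 1) := fun h => (Nat.not_odd_iff_even.2 hk) h.1
    simp only [hk, if_true, h5, if_false] at hg ⊢
    obtain ⟨m', h6, g', h2, h3⟩ := PyF.sumsq_jets (by linarith) (by linarith) g hg
    exact ⟨m', h6, g', h2, fun x => (hf x).trans (h3 x)⟩
  · have h4 : (k - 1) / 2 = k / 2 := by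
      rw [Nat.not_even_iff] at hk; omega
    simp only [hk, if_false, h4] at hg ⊢
    by_cases h5 : Odd k ∧ α = 1
    · rw [if_pos h5]
      obtain ⟨g', h2, h3⟩ := PyF.sumsq_bound (by linarith) (by linarith) g hg
      exact ⟨_, le_rfl, g', h2, fun x => (hf x).trans (h3 x)⟩
    · rw [if_neg h5]
      have h7 : α < 1 := lt_of_le_of_ne h1 fun h => h5 ⟨Nat.not_even_iff_odd.1 hk, h⟩
      obtain ⟨m', h6, g', h2, h3⟩ := PyF.sumsq_jets (by linarith) (by linarith) g hg
      exact ⟨m', h6, g', h2, fun x => (hf x).trans (h3 x)⟩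

end Pool.Agent.Retired.MP_ca9be0_an.JetBound
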