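import Pool.Agent.Lib.MP_ca9be0_an.LeepD

namespace Pool.Agent.Retired.MP_ca9be0_an.Leep

open Pool.Agent.Lib.MP_ca9be0_an

/-- The Pythagoras number of `C^{k,α}(ℝ^n)` exceeds the number of monomials of degree at most
`k / 2` in `n - 1` variables. -/
theorem result (k n : ℕ) (α : ℝ) (hk : 2 ≤ k) (hn : 1 ≤ n) (h0 : 0 < α) (h1 : α ≤ 1) :
    (((n - 1 + k / 2).choose (k / 2) + 1 : ℕ) : ℕ∞) ≤ pyth k n α := by
  obtain ⟨b, rfl⟩ : ∃ b, n = b + 1 := ⟨n - 1, by omega⟩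
  obtain ⟨β, b0, b1, hs, hβ⟩ : ∃ β : ℝ, 0 < β ∧ β ≤ 1 ∧ k + α = 2 * ((k / 2 : ℕ) + β) ∧
      ∀ g : EuclideanSpace ℝ (Fin (b + 1)) → ℝ, InHalf k α g ↔ InC (k / 2) β g := by
    rcases Nat.even_or_odd' k with ⟨j, rfl | rfl⟩
    · refine ⟨α / 2, by linarith, by linarith, ?_, fun g => by simp [InHalf]⟩
      rw [show 2 * j / 2 = j by omega]; push_cast; ring
    · have e : (2 * j + 1) / 2 = j := by omega
      refine ⟨(1 + α) / 2, by linarith, by linarith, ?_, fun g => by simp [InHalf, e]⟩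
      rw [e]; push_cast; ring
  refine le_sInf ?_
  rintro _ ⟨m, hm, rfl⟩
  have key := PyF.Lp.leep_core (b := b) (m := m) h0 h1 b0 b1 hs (by omega) (by omega)
    fun G h2 h3 => by
      obtain ⟨m', h4, g, h5, h6⟩ := hm _ h3 ⟨_, fun i => G ((Fintype.equivFin _).symm i),
        fun i => (hβ _).2 (h2 _), fun x => (Equiv.sum_comp (Fintype.equivFin _).symm
          fun v => G v x ^ 2).symm⟩
      obtain ⟨e, rfl⟩ := Nat.exists_eq_add_of_le h4
      refine ⟨Fin.append g fun _ _ => 0, fun j => Fin.addCases (fun j => ?_) (fun j => ?_) j,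
        fun y => by simpa [Fin.sum_univ_add] using h6 y⟩
      · simpa using (hβ _).1 (h5 j)
      · simpa using (PyF.Cf.poly (PyF.const_mem _ 0) le_rfl).inC b0 le_rfl
  rw [PyF.Lp.card_Id] at key
  beta_reduce
  exact_mod_cast key

end Pool.Agent.Retired.MP_ca9be0_an.Leep
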