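import Pool.Agent.Lib.MP_ca9be0_an.Main

open Pool.Agent.Lib.MP_ca9be0_an

/-- The Pythagoras numbers of `C^{2,α}(ℝ^n)` and `C^{3,α}(ℝ^n)` are exactly `n + 1`. -/
theorem Pool.Agent.Retired.MP_ca9be0_an.TwoThree.result (k n : ℕ) (α : ℝ) (hk : k = 2 ∨ k = 3)
    (hn : 1 ≤ n) (h0 : 0 < α) (h1 : α ≤ 1) : pyth k n α = ((n + 1 : ℕ) : ℕ∞) := by
  obtain ⟨n, rfl⟩ := Nat.exists_eq_add_of_le' hn
  rcases hk with rfl | rfl
  · have : Ex (1 + α / 2) := ⟨by linarith, by linarith⟩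
    exact pyth_eq (γ := α / 2) h0 h1 fun g => by simp [InHalf]
  · have : Ex (1 + (1 + α) / 2) := ⟨by linarith, by linarith⟩
    exact pyth_eq (γ := (1 + α) / 2) h0 h1 fun g => by
      simp [InHalf, show ¬ Even 3 by decide]
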